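import Pool.Agent.W254.LF.Final3
import Pool.Agent.W932.LF.Frob
import Pool.Agent.W704.LF.PLOG
import Pool.Agent.W310.LF.Sel
import Pool.Agent.W251.LF.CCau
import Pool.Agent.W753.LF.Data
import Pool.Agent.W800.LF.Pui
import Pool.Agent.W800.LF.Sepr

/-!
# Leopoldt's conjecture at all small primes for almost all members of explicit families

Let `P_1, ..., P_r` (`r ≥ 1`) be distinct monic polynomials with integral coefficients, each of them
linear or quadratic without real roots, and let `m` be the sum of their degrees.  There is a constant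
`C₀` such that for every finite set `A` of prime numbers all but at most `m Σ_{p ∈ A} p + C₀`
integers `t` have the following property: `F_t = (X - t) P_1 ⋯ P_r - 1` is irreducible over `ℚ`, and
the number field generated by one of its roots has exactly `1 + #{linear P_i}` real and
`#{quadratic P_i}` complex places and satisfies Leopoldt's conjecture at every `p ∈ A`, that is,
Schneider's conjecture for `r = 1`.

For the primes up to `y` there are at most `m y² + C₀` exceptions; so for 100 percent of the integers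
`t` Leopoldt's conjecture holds at all primes `p ≤ |t|^(1/2 - δ)`, ramified or not.

Proof.  In a residue class modulo `p` (large) the roots of `F_t` have tame Puiseux expansions with
integral coefficients at a point `t₁` of an unramified extension.  A Fourier transform over the
branches and division by the obvious powers of `p` turn the determinant of the `p`-adic logarithms
into a power series with integral coefficients whose reduction is a polynomial of degree `m`; its
leading coefficient is a confluent Cauchy determinant, hence a unit.  By Strassmann's theorem it has at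
most `m` zeros.

The parts were proved together with helpers 74, 101, 154, 230, 239, 251, 253, 289, 310, 327, 335, 398,
460, 515, 540, 542, 605, 704, 753, 800, 924, 930, 932.
-/

set_option autoImplicit false

namespace Pool.Agent.Results.MP_59f3ad_nt.AllPrimesUpToABound

open Polynomial NumberField IntermediateField Pool.Agent.W254.LF

/-- The primes up to `y` have sum at most `y²`. -/
lemma sum_primes_le (y : ℕ) : ∑ p ∈ (Finset.range (y + 1)).filter Nat.Prime, p ≤ y ^ 2 := by
  have h1 : ((Finset.range (y + 1)).filter Nat.Prime) ⊆ Finset.Icc 1 y := by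
    intro p hp
    obtain ⟨h2, h3⟩ := Finset.mem_filter.1 hp
    rw [Finset.mem_range] at h2
    exact Finset.mem_Icc.2 ⟨h3.one_le, by omega⟩
  calc ∑ p ∈ (Finset.range (y + 1)).filter Nat.Prime, p ≤ ∑ p ∈ Finset.Icc 1 y, p :=
        Finset.sum_le_sum_of_subset h1
    _ ≤ ∑ _p ∈ Finset.Icc 1 y, y := Finset.sum_le_sum fun p hp => (Finset.mem_Icc.1 hp).2
    _ = y ^ 2 := by
        rw [Finset.sum_const, Nat.card_Icc, smul_eq_mul, Nat.add_sub_cancel, sq]

/-- **Main result.** -/
theorem result :
    ∀ (r : ℕ) (P : Fin r → ℤ[X]), 0 < r → (∀ i, (P i).Monic) → Function.Injective P →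
      (∀ i, (P i).natDegree = 1 ∨
        ((P i).natDegree = 2 ∧ ∀ x : ℝ, ((P i).map (Int.castRingHom ℝ)).eval x ≠ 0)) →
      ∃ C₀ : ℕ, (∀ A : Finset ℕ, (∀ p ∈ A, p.Prime) →
        ∃ E : Finset ℤ, E.card ≤ (∑ i, (P i).natDegree) * (∑ p ∈ A, p) + C₀ ∧ ∀ t ∉ E,
          Irreducible (((X - C t) * ∏ i, P i - 1 : ℤ[X]).map (Int.castRingHom ℚ)) ∧
          ∀ (K : Type) [Field K] [NumberField K] (θ : K),
            aeval θ ((X - C t) * ∏ i, P i - 1 : ℤ[X]) = 0 → ℚ⟮θ⟯ = ⊤ →
            InfinitePlace.nrRealPlaces K =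
              1 + (Finset.univ.filter fun i => (P i).natDegree = 1).card ∧
            InfinitePlace.nrComplexPlaces K =
              (Finset.univ.filter fun i => (P i).natDegree = 2).card ∧
            ∀ (p : ℕ) [Fact p.Prime], p ∈ A → LeopoldtAt K p) ∧
      (∀ y : ℕ, ∃ E : Finset ℤ, E.card ≤ (∑ i, (P i).natDegree) * y ^ 2 + C₀ ∧ ∀ t ∉ E,
          Irreducible (((X - C t) * ∏ i, P i - 1 : ℤ[X]).map (Int.castRingHom ℚ)) ∧
          ∀ (K : Type) [Field K] [NumberField K] (θ : K),
            aeval θ ((X - C t) * ∏ i, P i - 1 : ℤ[X]) = 0 → ℚ⟮θ⟯ = ⊤ →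
            InfinitePlace.nrRealPlaces K =
              1 + (Finset.univ.filter fun i => (P i).natDegree = 1).card ∧
            InfinitePlace.nrComplexPlaces K =
              (Finset.univ.filter fun i => (P i).natDegree = 2).card ∧
            ∀ (p : ℕ) [Fact p.Prime], p ≤ y → LeopoldtAt K p) := by
  intro r P hr hmon hinj hdeg
  obtain ⟨C₀, h⟩ := finalA Pool.Agent.W800.LF.t_PUI Pool.Agent.W704.LF.t_PLOG
    Pool.Agent.W251.LF.t_CCAU Pool.Agent.W310.LF.t_SEL
    (Pool.Agent.W753.LF.t_DATA Pool.Agent.W932.LF.t_FRR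
      (Pool.Agent.W932.LF.t_FRK Pool.Agent.W932.LF.t_FRS Pool.Agent.W932.LF.t_FRR)
      Pool.Agent.W932.LF.t_FRS Pool.Agent.W800.LF.t_SEPR) r hr P hmon hinj hdeg
  refine ⟨C₀, h, fun y => ?_⟩
  obtain ⟨E, hE, h1⟩ := h ((Finset.range (y + 1)).filter Nat.Prime)
    (fun p hp => (Finset.mem_filter.1 hp).2)
  refine ⟨E, hE.trans (Nat.add_le_add_right (Nat.mul_le_mul_left _ (sum_primes_le y)) _), ?_⟩
  intro t ht
  obtain ⟨h2, h3⟩ := h1 t ht
  refine ⟨h2, ?_⟩
  intro K _ _ θ hθ hadj
  obtain ⟨h4, h5, h6⟩ := h3 K θ hθ hadj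
  refine ⟨h4, h5, ?_⟩
  intro p hp hpy
  exact h6 p (Finset.mem_filter.2 ⟨Finset.mem_range.2 (by omega), hp.out⟩)

end Pool.Agent.Results.MP_59f3ad_nt.AllPrimesUpToABound
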